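import Mathlib
import Pool.Agent.T9h40.Kaw.Two

/-!
# Elements of degree `h` in invariant rings with `O(h)` invertible

Let `R = ℂ[x_1, ..., x_n] / (f_1, ..., f_c)`, where `x_i` has weight `w i > 0` and `f_j` is weighted
homogeneous of degree `δ j ≥ 2`. Let a finite group `G`, not necessarily abelian, act linearly on
the variables, preserving the weights and the span of the `f_j` of each given degree. Let `h ≥ 1`
and assume that `O(h)` is invertible on `Proj R^G`: at every point `v ≠ 0` of the cone `Spec R`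
there are invariant elements of `R` of degrees `h d` and `h (d + 1)` which do not vanish at `v`.
(The ring `⊕ (R_{hm})^G` is then of section ring type.) Let `N = ∑ w i - ∑ δ j`.

* If `h = 2`, then `N ≤ 2 dim (R_2)^G`.
* If `h` is prime to `|G|`, then `N ≤ ∑_{m ∣ h} m dim (U_m)^G`, where `U_m` is the span of the
  variables of weight `m`; and if moreover `N > 0` and no nonzero element of any `U_m` vanishes
  on the cone, then `(R_h)^G` contains an element which is not nilpotent, namely `u ^ (h / m)` for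
  some nonzero invariant `u` in `U_m`.
-/

set_option autoImplicit false

namespace Pool.Agent.Results.MP_954e53_ag.AnyGroupDegreeTwo

open MvPolynomial Pool.Agent.H964R2.Core Pool.Agent.T9h40.Kaw

/-- the space of the linear combinations of the variables of weight `m` which are invariant
under `G` -/
def linInv {n : ℕ} (w : Fin n → ℕ) {G : Type} [Group G]
    (φ : G →* (MvPolynomial (Fin n) ℂ ≃ₐ[ℂ] MvPolynomial (Fin n) ℂ)) (m : ℕ) :
    Submodule ℂ (MvPolynomial (Fin n) ℂ) where
  carrier := {u | u ∈ Submodule.span ℂ ((X : Fin n → MvPolynomial (Fin n) ℂ) '' {k | w k = m}) ∧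
    ∀ g, φ g u = u}
  zero_mem' := ⟨Submodule.zero_mem _, fun g => map_zero _⟩
  add_mem' := fun ha hb => ⟨Submodule.add_mem _ ha.1 hb.1, fun g => by
    rw [map_add, ha.2 g, hb.2 g]⟩
  smul_mem' := fun c _ ha => ⟨Submodule.smul_mem _ _ ha.1, fun g => by
    rw [map_smul, ha.2 g]⟩

lemma finrank_linInv {n : ℕ} {w : Fin n → ℕ} {G : Type} [Group G]
    (φ : G →* (MvPolynomial (Fin n) ℂ ≃ₐ[ℂ] MvPolynomial (Fin n) ℂ))
    (hφX : ∀ g i, φ g (X i) ∈ Sp (X : Fin n → MvPolynomial (Fin n) ℂ) w (w i)) (m : ℕ) :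
    Module.finrank ℂ (rep φ X w hφX m).invariants = Module.finrank ℂ (linInv w φ m) := by
  let e : (rep φ X w hφX m).invariants ≃ₗ[ℂ] linInv w φ m :=
    { toFun := fun u => ⟨((u : Sp X w m) : MvPolynomial (Fin n) ℂ), (u : Sp X w m).2, fun g => by
        have h1 := congrArg Subtype.val (u.2 g)
        rw [rep_apply] at h1
        exact h1⟩
      invFun := fun u => ⟨⟨(u : MvPolynomial (Fin n) ℂ), u.2.1⟩, fun g => by
        apply Subtype.ext
        rw [rep_apply]
        exact u.2.2 g⟩
      left_inv := fun u => rfl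
      right_inv := fun u => rfl
      map_add' := fun u v => rfl
      map_smul' := fun c u => rfl }
  exact e.finrank_eq

theorem result {n c : ℕ} (h : ℕ) (hh : 0 < h) (w : Fin n → ℕ) (hw : ∀ i, 0 < w i)
    (f : Fin c → MvPolynomial (Fin n) ℂ) (δ : Fin c → ℕ) (hδ : ∀ j, 2 ≤ δ j)
    (hf : ∀ j, IsWeightedHomogeneous w (f j) (δ j))
    (G : Type) [Group G] [Finite G]
    (φ : G →* (MvPolynomial (Fin n) ℂ ≃ₐ[ℂ] MvPolynomial (Fin n) ℂ))
    (hφX : ∀ g i, φ g (X i) ∈
      Submodule.span ℂ ((X : Fin n → MvPolynomial (Fin n) ℂ) '' {k | w k = w i}))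
    (hφf : ∀ g j, φ g (f j) ∈ Submodule.span ℂ (f '' {l | δ l = δ j}))
    (hL : ∀ v : Fin n → ℂ, v ≠ 0 → (∀ j, eval v (f j) = 0) → ∃ (d : ℕ)
      (a b : MvPolynomial (Fin n) ℂ), IsWeightedHomogeneous w a (h * d) ∧
      IsWeightedHomogeneous w b (h * (d + 1)) ∧
      (∀ g, φ g a - a ∈ Ideal.span (Set.range f)) ∧
      (∀ g, φ g b - b ∈ Ideal.span (Set.range f)) ∧ eval v a ≠ 0 ∧ eval v b ≠ 0) :
    (h = 2 → (∑ i, (w i : ℤ)) - ∑ j, (δ j : ℤ) ≤ 2 * Module.finrank ℂ (invPart w f φ 2)) ∧
    ((Nat.card G).Coprime h →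
      (∑ i, (w i : ℤ)) - ∑ j, (δ j : ℤ) ≤
        ∑ m ∈ h.divisors, (m : ℤ) * Module.finrank ℂ (linInv w φ m) ∧
      (∑ j, δ j < ∑ i, w i →
        (∀ m, ∀ u ∈ Submodule.span ℂ ((X : Fin n → MvPolynomial (Fin n) ℂ) '' {k | w k = m}),
          u ≠ 0 → ∃ v : Fin n → ℂ, (∀ j, eval v (f j) = 0) ∧ eval v u ≠ 0) →
        ∃ r ∈ invPart w f φ h, ¬ IsNilpotent r)) := by
  classical
  have _ := Fintype.ofFinite G
  have hG : (0 : ℝ) < Fintype.card G := by exact_mod_cast Fintype.card_pos
  have hg := trace_ineq h hh w hw f δ (fun j => lt_of_lt_of_le two_pos (hδ j)) hf G φ hφX hφf hL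
  have hUfin : ∀ m, FiniteDimensional ℂ (Sp (X : Fin n → MvPolynomial (Fin n) ℂ) w m) :=
    fun m => FiniteDimensional.span_of_finite ℂ (Set.toFinite _)
  have hFfin : ∀ m, FiniteDimensional ℂ (Sp f δ m) :=
    fun m => FiniteDimensional.span_of_finite ℂ (Set.toFinite _)
  have hsum := Finset.sum_le_sum (fun g (_ : g ∈ (Finset.univ : Finset G)) => hg g)
  rw [Finset.sum_const, Finset.card_univ, nsmul_eq_mul, Finset.sum_comm] at hsum
  refine ⟨?_, ?_⟩
  · rintro rfl
    have hdiv : Nat.divisors 2 = {1, 2} := by decide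
    rw [hdiv, Finset.sum_pair (by norm_num)] at hsum
    simp only [Nat.div_one, Nat.cast_one, one_mul, Finset.sum_sub_distrib, ← Finset.mul_sum,
      Nat.cast_ofNat, show (2 / 2 : ℕ) = 1 from rfl, pow_one] at hsum
    -- the relations of degree one
    have hF1 : ∀ g, LinearMap.trace ℂ (Sp f δ 1) (rep φ f δ hφf 1 (g ^ 2)) = 0 := by
      intro g
      have h1 : Sp f δ 1 = ⊥ := by
        rw [Sp, Submodule.span_eq_bot]
        rintro _ ⟨j, hj, rfl⟩
        have h2 := hδ j
        rw [show δ j = 1 from hj] at h2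
        omega
      have h2 : rep φ f δ hφf 1 (g ^ 2) = 0 := by
        apply LinearMap.ext
        intro u
        have h3 : u = 0 := by
          apply Subtype.ext
          exact (Submodule.mem_bot ℂ).mp (h1.le u.2)
        rw [h3, map_zero, map_zero]
      rw [h2, map_zero]
    simp only [hF1, Complex.zero_re, Finset.sum_const_zero, sub_zero] at hsum
    have h1 := avg_sq (mat φ hφX)
    have h2 := avg_eq (rep φ X w hφX 2)
    have h3 := avg_eq (rep φ f δ hφf 2)
    simp only [trace_mat] at h1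
    have h1' := congrArg Complex.re h1
    have h2' := congrArg Complex.re h2
    have h3' := congrArg Complex.re h3
    rw [Complex.re_sum] at h1' h2' h3'
    have e1 : ((Fintype.card G : ℂ) * (2 * Module.finrank ℂ (symInv (mat φ hφX)) -
        Module.finrank ℂ (conjRep (mat φ hφX)).invariants)).re = (Fintype.card G : ℝ) *
        (2 * Module.finrank ℂ (symInv (mat φ hφX)) -
        Module.finrank ℂ (conjRep (mat φ hφX)).invariants) := by
      norm_cast
    have e2 : ∀ k : ℕ, ((Fintype.card G : ℂ) * (k : ℂ)).re = (Fintype.card G : ℝ) * k := by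
      intro k
      rw [show ((Fintype.card G : ℂ) * (k : ℂ)) = (((Fintype.card G : ℝ) * (k : ℝ) : ℝ) : ℂ) by
        push_cast; rfl, Complex.ofReal_re]
    rw [e1] at h1'
    rw [e2] at h2' h3'
    rw [h1', h2', h3'] at hsum
    have h4 := two_count hw f δ hδ hf φ hφX hφf
    have h5 : (Module.finrank ℂ (symInv (mat φ hφX)) : ℝ) +
        Module.finrank ℂ (rep φ X w hφX 2).invariants ≤
      Module.finrank ℂ (invPart w f φ 2) + Module.finrank ℂ (rep φ f δ hφf 2).invariants := by
      exact_mod_cast h4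
    have h6 : (∑ i, (w i : ℝ)) - ∑ j, (δ j : ℝ) ≤ 2 * Module.finrank ℂ (invPart w f φ 2) := by
      have h7 : (Fintype.card G : ℝ) * ((∑ i, (w i : ℝ)) - ∑ j, (δ j : ℝ)) ≤
          (Fintype.card G : ℝ) * (2 * Module.finrank ℂ (invPart w f φ 2)) := by
        refine hsum.trans ?_
        rw [show (Fintype.card G : ℝ) * (2 * (Module.finrank ℂ (symInv (mat φ hφX)) : ℝ) -
          Module.finrank ℂ (conjRep (mat φ hφX)).invariants) +
          2 * ((Fintype.card G : ℝ) * (Module.finrank ℂ (rep φ X w hφX 2).invariants : ℝ) -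
          (Fintype.card G : ℝ) * (Module.finrank ℂ (rep φ f δ hφf 2).invariants : ℝ)) =
          (Fintype.card G : ℝ) * (2 * ((Module.finrank ℂ (symInv (mat φ hφX)) : ℝ) +
          Module.finrank ℂ (rep φ X w hφX 2).invariants -
          Module.finrank ℂ (rep φ f δ hφf 2).invariants) -
          Module.finrank ℂ (conjRep (mat φ hφX)).invariants) by ring]
        apply mul_le_mul_of_nonneg_left _ hG.le
        have h8 : (0 : ℝ) ≤ Module.finrank ℂ (conjRep (mat φ hφX)).invariants := Nat.cast_nonneg _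
        linarith
      exact le_of_mul_le_mul_left h7 hG
    exact_mod_cast h6
  · intro hcop
    have h6 : (∑ i, (w i : ℝ)) - ∑ j, (δ j : ℝ) ≤
        ∑ m ∈ h.divisors, (m : ℝ) * Module.finrank ℂ (linInv w φ m) := by
      have h7 : (Fintype.card G : ℝ) * ((∑ i, (w i : ℝ)) - ∑ j, (δ j : ℝ)) ≤
          (Fintype.card G : ℝ) *
            ∑ m ∈ h.divisors, (m : ℝ) * Module.finrank ℂ (linInv w φ m) := by
        refine hsum.trans ?_
        rw [Finset.mul_sum]
        apply Finset.sum_le_sum
        intro m hm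
        have hk : (Nat.card G).Coprime (h / m) :=
          Nat.Coprime.coprime_dvd_right (Nat.div_dvd_of_dvd (Nat.dvd_of_mem_divisors hm)) hcop
        have e2 : ∀ k : ℕ, ((Fintype.card G : ℂ) * (k : ℂ)).re = (Fintype.card G : ℝ) * k := by
          intro k
          rw [show ((Fintype.card G : ℂ) * (k : ℂ)) =
            (((Fintype.card G : ℝ) * (k : ℝ) : ℝ) : ℂ) by push_cast; rfl, Complex.ofReal_re]
        have h2 := congrArg Complex.re (avg_pow (rep φ X w hφX m) hk)
        have h3 := congrArg Complex.re (avg_pow (rep φ f δ hφf m) hk)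
        rw [Complex.re_sum, e2] at h2 h3
        rw [← Finset.mul_sum, Finset.sum_sub_distrib, h2, h3, finrank_linInv]
        have h8 : (0 : ℝ) ≤ Module.finrank ℂ (rep φ f δ hφf m).invariants := Nat.cast_nonneg _
        have h9 : (0 : ℝ) ≤ (m : ℝ) * ((Fintype.card G : ℝ) *
          (Module.finrank ℂ (rep φ f δ hφf m).invariants : ℝ)) := by positivity
        nlinarith
      exact le_of_mul_le_mul_left h7 hG
    have h7 : (∑ i, (w i : ℤ)) - ∑ j, (δ j : ℤ) ≤
        ∑ m ∈ h.divisors, (m : ℤ) * Module.finrank ℂ (linInv w φ m) := by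
      exact_mod_cast h6
    refine ⟨h7, ?_⟩
    intro hpos hnd
    have hpos' : (0 : ℤ) < ∑ m ∈ h.divisors, (m : ℤ) * Module.finrank ℂ (linInv w φ m) := by
      refine lt_of_lt_of_le ?_ h7
      rw [sub_pos]
      exact_mod_cast hpos
    obtain ⟨m, hm, hm0⟩ : ∃ m ∈ h.divisors, Module.finrank ℂ (linInv w φ m) ≠ 0 := by
      by_contra hcon
      push Not at hcon
      rw [Finset.sum_eq_zero] at hpos'
      · exact lt_irrefl _ hpos'
      · intro m hm
        rw [hcon m hm]
        simp
    have hne : linInv w φ m ≠ ⊥ := by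
      rintro hb
      rw [hb, finrank_bot] at hm0
      exact hm0 rfl
    obtain ⟨u, hu, hu0⟩ := (Submodule.ne_bot_iff _).mp hne
    obtain ⟨v, hv, hvu⟩ := hnd m u hu.1 hu0
    refine ⟨Ideal.Quotient.mk _ (u ^ (h / m)), ⟨u ^ (h / m), ?_, rfl, fun g => ?_⟩, ?_⟩
    · have h1 : IsWeightedHomogeneous w u m := by
        have h1 : Sp (X : Fin n → MvPolynomial (Fin n) ℂ) w m ≤
            weightedHomogeneousSubmodule ℂ w m := by
          apply Submodule.span_le.mpr
          rintro _ ⟨i, hi, rfl⟩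
          rw [SetLike.mem_coe, mem_weightedHomogeneousSubmodule]
          have := isWeightedHomogeneous_X ℂ w i
          rw [show w i = m from hi] at this
          exact this
        exact (mem_weightedHomogeneousSubmodule _ _ _ _).mp (h1 hu.1)
      have h2 := h1.pow (h / m)
      rwa [smul_eq_mul, Nat.div_mul_cancel (Nat.dvd_of_mem_divisors hm)] at h2
    · rw [map_pow (φ g), hu.2 g]
    · rintro ⟨N, hN⟩
      rw [← map_pow, Ideal.Quotient.eq_zero_iff_mem] at hN
      have hI : ∀ p ∈ Ideal.span (Set.range f), eval v p = 0 := by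
        intro p hp
        refine Submodule.span_induction (p := fun q _ => eval v q = 0) ?_ ?_ ?_ ?_ hp
        · rintro _ ⟨l, rfl⟩; exact hv l
        · simp
        · intro x y _ _ hx hy; rw [map_add, hx, hy, add_zero]
        · intro r x _ hx; rw [smul_eq_mul, map_mul, hx, mul_zero]
      have h3 := hI _ hN
      rw [map_pow, map_pow] at h3
      exact hvu (eq_zero_of_pow_eq_zero (eq_zero_of_pow_eq_zero h3))

end Pool.Agent.Results.MP_954e53_ag.AnyGroupDegreeTwo
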